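import Pool.Agent.Q226.FL2.OneDefs

/-!
# Circuits on literals with nondecreasing real gates, and sets of integers with tagged elements
-/

set_option autoImplicit false

open Finset

namespace Pool.Agent.Q226.SUF

/-- A circuit with the gates `0, ..., s - 1` whose inputs are the bits of the positions `e` in `E` and
their negations: `(e, true)` stands for the bit of `e` and `(e, false)` for its negation. Gate `i`
has `w i ≤ 2` inputs, namely `a i j`, each a literal (`0` or `1`) or an earlier gate; it computes a
nondecreasing function `op i` of real numbers, and its value on the values `y` of the literals is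
`val y i`. The circuit accepts if the value of gate `out` is at least `τ`. -/
structure LiteralCircuit (E : Type) where
  s : ℕ
  w : Fin s → ℕ
  a : (i : Fin s) → Fin (w i) → (E × Bool) ⊕ Fin s
  op : (i : Fin s) → (Fin (w i) → ℝ) → ℝ
  val : (E × Bool → Bool) → Fin s → ℝ
  out : Fin s
  τ : ℝ
  earlier : ∀ i j m, a i j = Sum.inr m → m < i
  mono : ∀ i, w i ≤ 2 ∧ Monotone (op i)
  spec : ∀ y i, val y i = op i (fun j =>
    Sum.elim (fun p => if y p = true then (1 : ℝ) else 0) (val y) (a i j))

/-- the circuit accepts the vector `y` of the values of the literals -/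
def LiteralCircuit.Accepts {E : Type} (C : LiteralCircuit E) (y : E × Bool → Bool) : Prop :=
  C.τ ≤ C.val y C.out

/-- each element has one tag -/
def OneTag {B K : ℕ} (x : Fin (B + 1) × Fin K → Bool) : Prop :=
  ∀ z k k', x (z, k) = true → x (z, k') = true → k = k'

open Classical in
/-- the set of the integers `z`, `0 ≤ z ≤ B`, for which one of the bits of the positions `(z, k)` is
`1` -/
noncomputable def ints {B K : ℕ} (x : Fin (B + 1) × Fin K → Bool) : Finset ℤ :=
  (univ.filter fun z : Fin (B + 1) => ∃ k, x (z, k) = true).image
    fun z : Fin (B + 1) => ((z : ℕ) : ℤ)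

/-- `S` has three pairwise different elements `a, b, c` with `a + b = c`. -/
def HasSum (S : Finset ℤ) : Prop :=
  ∃ a ∈ S, ∃ b ∈ S, ∃ c ∈ S, a ≠ b ∧ a ≠ c ∧ b ≠ c ∧ a + b = c

end Pool.Agent.Q226.SUF
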