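import Pool.Agent.Q226.SUF.Defs
import Pool.Agent.Q226.FL2.One2
import Pool.Agent.Q226.HLT.Main
import Pool.Agent.H560R2.Sum8

/-! # 3SUM with unreliable negations -/

set_option autoImplicit false

open Finset Filter

namespace Pool.Agent.Q226.SUF

open Pool.Agent.Q226.FL2 Pool.Agent.Q226.FLT

/-- circuits of nondecreasing gates are monotone in the literals -/
lemma val_mono {E : Type} (C : LiteralCircuit E) {y y' : E × Bool → Bool} (h : y ≤ y') :
    ∀ (m : ℕ) (i : Fin C.s), (i : ℕ) = m → C.val y i ≤ C.val y' i := by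
  intro m
  induction m using Nat.strong_induction_on with
  | _ m ih =>
    intro i hi
    rw [C.spec y i, C.spec y' i]
    refine (C.mono i).2 fun j => ?_
    show Sum.elim (fun p => if y p = true then (1 : ℝ) else 0) (C.val y) (C.a i j) ≤
      Sum.elim (fun p => if y' p = true then (1 : ℝ) else 0) (C.val y') (C.a i j)
    rcases hc : C.a i j with p | k
    · simp only [Sum.elim_inl]
      by_cases h1 : y p = true
      · have h2 : y' p = true := by
          have := h p
          rw [h1] at this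
          exact Bool.eq_true_of_true_le this
        rw [if_pos h1, if_pos h2]
      · rw [if_neg h1]
        by_cases h2 : y' p = true
        · rw [if_pos h2]; norm_num
        · rw [if_neg h2]
    · simp only [Sum.elim_inr]
      have h1 : (k : ℕ) < m := by
        have := C.earlier i j k hc
        rw [← hi]
        exact this
      exact ih k h1 k rfl

variable {B K : ℕ}

/-- the arguments after the substitution -/
def ar' (C : LiteralCircuit (Fin (B + 1) × Fin K)) (t : Fin (B + 1) → Fin K) (i : Fin C.s)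
    (j : Fin (C.w i)) : ℤ ⊕ Fin C.s :=
  Sum.elim (fun p => Sum.elim (fun z : Fin (B + 1) => Sum.inl ((z : ℕ) : ℤ)) (fun _ => Sum.inl 0)
    (rsub1 t p))
    Sum.inr (C.a i j)

open Classical in
/-- the operations after the substitution -/
noncomputable def op' (C : LiteralCircuit (Fin (B + 1) × Fin K)) (t : Fin (B + 1) → Fin K)
    (i : Fin C.s) (z : Fin (C.w i) → ℝ) : ℝ :=
  C.op i fun j => Sum.elim
    (fun p => Sum.elim (fun _ => z j) (fun b => if b = true then (1 : ℝ) else 0) (rsub1 t p))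
    (fun _ => z j) (C.a i j)

/-- the values after the substitution -/
def val' (C : LiteralCircuit (Fin (B + 1) × Fin K)) (t : Fin (B + 1) → Fin K) (x : ℤ → Bool) :
    Fin C.s → ℝ :=
  C.val (rl1 t fun z => x ((z : ℕ) : ℤ))

lemma ar'_earlier (C : LiteralCircuit (Fin (B + 1) × Fin K)) (t : Fin (B + 1) → Fin K)
    (i : Fin C.s) (j : Fin (C.w i)) (k : Fin C.s) (h : ar' C t i j = Sum.inr k) : k < i := by
  unfold ar' at h
  rcases hc : C.a i j with p | m
  · rw [hc, Sum.elim_inl] at h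
    rcases hr : rsub1 t p with z | b
    · rw [hr, Sum.elim_inl] at h
      exact absurd h (by simp)
    · rw [hr, Sum.elim_inr] at h
      exact absurd h (by simp)
  · rw [hc, Sum.elim_inr, Sum.inr.injEq] at h
    rw [← h]
    exact C.earlier i j m hc

lemma op'_mono (C : LiteralCircuit (Fin (B + 1) × Fin K)) (t : Fin (B + 1) → Fin K)
    (i : Fin C.s) : Monotone (op' C t i) := by
  intro z z' h
  unfold op'
  refine (C.mono i).2 fun j => ?_
  show Sum.elim _ _ (C.a i j) ≤ Sum.elim _ _ (C.a i j)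
  rcases C.a i j with p | m
  · simp only [Sum.elim_inl]
    rcases rsub1 t p with z1 | b
    · exact h j
    · exact le_rfl
  · exact h j

lemma val'_spec (C : LiteralCircuit (Fin (B + 1) × Fin K)) (t : Fin (B + 1) → Fin K)
    (x : ℤ → Bool) (i : Fin C.s) :
    val' C t x i = op' C t i (fun j => Sum.elim (Pool.Agent.H560R2.bit x) (val' C t x)
      (ar' C t i j)) := by
  unfold val' op' ar'
  rw [C.spec]
  refine congrArg (C.op i) (funext fun j => ?_)
  beta_reduce
  generalize C.a i j = c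
  rcases c with p | m
  · simp only [Sum.elim_inl]
    have h1 : rl1 t (fun z => x ((z : ℕ) : ℤ)) p =
        Sum.elim (fun z : Fin (B + 1) => x ((z : ℕ) : ℤ)) id (rsub1 t p) := by
      rw [← sval_rsub1]
      rfl
    rw [h1]
    generalize rsub1 t p = r
    rcases r with z1 | b
    · rfl
    · rfl
  · rfl

lemma oneTag_host (t : Fin (B + 1) → Fin K) (M : Fin (B + 1) → Bool) : OneTag (host t M) := by
  intro e k k' h h'
  unfold host at h h'
  simp only [Bool.and_eq_true, decide_eq_true_eq] at h h'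
  rw [h.2, h'.2]

lemma ints_host (t : Fin (B + 1) → Fin K) (S : Finset ℤ) (hS : ∀ z ∈ S, 0 ≤ z ∧ z ≤ B) :
    ints (host t fun z : Fin (B + 1) => decide (((z : ℕ) : ℤ) ∈ S)) = S := by
  classical
  ext z
  unfold ints host
  simp only [mem_image, mem_filter, mem_univ, true_and, Bool.and_eq_true, decide_eq_true_eq,
    exists_and_left, exists_eq, and_true]
  constructor
  · rintro ⟨z', h1, rfl⟩
    exact h1
  · intro h
    obtain ⟨h0, h1⟩ := hS z h
    refine ⟨⟨z.toNat, by omega⟩, ?_, ?_⟩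
    · show ((z.toNat : ℕ) : ℤ) ∈ S
      rw [Int.toNat_of_nonneg h0]
      exact h
    · show ((z.toNat : ℕ) : ℤ) = z
      exact Int.toNat_of_nonneg h0

theorem main (t b : ℝ) (ht : 0 ≤ t) (ht2 : t < 2) (hb : 0 < b) :
    ∀ᶠ n : ℕ in atTop, ∀ B D K : ℕ, (n : ℝ) ^ (1 + b) ≤ B → 1 ≤ D →
      D * Real.log (40 * (B + 1)) ≤ K →
      ∀ (Ω : Type) [Fintype Ω] [Nonempty Ω] (C : Ω → LiteralCircuit (Fin (B + 1) × Fin K)),
      (∀ ω, ((C ω).s : ℝ) ≤ (n : ℝ) ^ t) →
      ∃ x : Fin (B + 1) × Fin K → Bool, OneTag x ∧ (ints x).card ≤ n ∧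
        ((HasSum (ints x) ∧ faultyProbability (fun ω y => (C ω).Accepts y) D x < 2 / 3) ∨
        (¬ HasSum (ints x) ∧ 1 / 3 < probability (fun ω y => (C ω).Accepts y) x)) := by
  classical
  obtain ⟨a, ha, n0, hmain⟩ := Pool.Agent.H560R2.sum_hard 0 t b le_rfl ht hb (by linarith)
  filter_upwards [eventually_ge_atTop n0, HLT.small_rpow ha, eventually_ge_atTop 1] with n hn hsmall
    hn1
  obtain ⟨Λ, hΛ, hΛne, yes, no, hyes, hno, hadv⟩ := hmain n hn
  intro B D K hB hD hK Ω _ _ C hC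
  by_contra hcon
  push Not at hcon
  have hDR : (1 : ℝ) ≤ D := by exact_mod_cast hD
  have hcard : Fintype.card (Fin (B + 1)) = B + 1 := Fintype.card_fin _
  have hcard0 : 0 < Fintype.card (Fin (B + 1)) := by rw [hcard]; omega
  have hK' : D * Real.log (2 * Fintype.card (Fin (B + 1)) / (1 / 20)) ≤ K := by
    rw [hcard]
    push_cast
    have : (2 * ((B : ℝ) + 1) / (1 / 20)) = 40 * (B + 1) := by ring
    rw [this]
    exact hK
  have hK0 : 0 < K := by
    have h0 : (0 : ℝ) ≤ B := Nat.cast_nonneg _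
    have h1 : 0 < Real.log (40 * (B + 1)) := Real.log_pos (by linarith)
    have h3 : (0 : ℝ) < K := lt_of_lt_of_le (by positivity) hK
    exact_mod_cast h3
  have : Nonempty (Fin K) := ⟨⟨0, hK0⟩⟩
  have hpos : (0 : ℝ) < Fintype.card (Ω × (Fin (B + 1) → Fin K)) := by
    exact_mod_cast Fintype.card_pos
  have hmono : ∀ (ω : Ω) (y z : (Fin (B + 1) × Fin K) × Bool → Bool), y ≤ z →
      (C ω).Accepts y → (C ω).Accepts z := by
    intro ω y z hyz h
    exact le_trans h (val_mono (C ω) hyz _ (C ω).out rfl)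
  have hrange : ∀ S : Finset ℤ, (∀ z ∈ S, 0 ≤ z ∧ (z : ℝ) ≤ (n : ℝ) ^ (1 + 0 + b)) →
      ∀ z ∈ S, 0 ≤ z ∧ z ≤ B := by
    intro S hS z hz
    refine ⟨(hS z hz).1, ?_⟩
    have h1 := (hS z hz).2
    rw [add_zero] at h1
    exact_mod_cast h1.trans hB
  -- the number of accepting members
  set acc : Finset ℤ → Ω × (Fin (B + 1) → Fin K) → ℝ := fun S o =>
    if (C o.1).τ ≤ val' (C o.1) o.2 (fun z => decide (z ∈ S)) (C o.1).out then 1 else 0 with hacc
  have hy : ∀ l, (2 / 3 - 1 / 20 : ℝ) * Fintype.card (Ω × (Fin (B + 1) → Fin K)) ≤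
      ∑ o, acc (yes l) o := by
    intro l
    have h1 := one_yes (η := 1 / 20) hD hK0 (by norm_num) hcard0 hK'
      (fun ω y => (C ω).Accepts y) hmono
      (fun z : Fin (B + 1) => decide (((z : ℕ) : ℤ) ∈ yes l)) (A := 2 / 3 - 1 / 20)
      (fun t => by
        have h2 := hcon _ (oneTag_host t fun z : Fin (B + 1) => decide (((z : ℕ) : ℤ) ∈ yes l))
        rw [ints_host t _ (hrange _ (hyes l).2.1)] at h2
        have h3 := (h2 (hyes l).1).1 (hyes l).2.2
        linarith)
    refine h1.trans (le_of_eq ?_)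
    rw [Finset.card_filter]
    push_cast
    rfl
  have hn' : ∀ l, ∑ o, acc (no l) o ≤
      1 / 3 * Fintype.card (Ω × (Fin (B + 1) → Fin K)) := by
    intro l
    have h1 := one_no hK0 (fun ω y => (C ω).Accepts y) hmono
      (fun z : Fin (B + 1) => decide (((z : ℕ) : ℤ) ∈ no l)) (B := 1 / 3)
      (fun t => by
        have h2 := hcon _ (oneTag_host t fun z : Fin (B + 1) => decide (((z : ℕ) : ℤ) ∈ no l))
        rw [ints_host t _ (hrange _ (hno l).2.1)] at h2
        exact (h2 (hno l).1).2 (hno l).2.2)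
    refine le_trans (le_of_eq ?_) h1
    rw [Finset.card_filter]
    push_cast
    rfl
  -- each member has a small advantage
  have hL0 : (0 : ℝ) < Fintype.card Λ := by exact_mod_cast Fintype.card_pos
  have hone : ∀ o : Ω × (Fin (B + 1) → Fin K), ∑ l, acc (yes l) o ≤
      ∑ l, acc (no l) o + (n : ℝ) ^ (-a) * Fintype.card Λ := by
    intro o
    have h1 := hadv (C o.1).s ∅ (C o.1).w (ar' (C o.1) o.2) (op' (C o.1) o.2) (fun _ _ => 0)
      (val' (C o.1) o.2) (C o.1).out (C o.1).τ (ar'_earlier (C o.1) o.2)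
      (fun i _ => ⟨((C o.1).mono i).1, op'_mono (C o.1) o.2 i⟩)
      (fun i hi => absurd hi (Finset.notMem_empty i)) (val'_spec (C o.1) o.2)
      (by simpa using hC o.1) (by simp)
    rw [div_add' _ _ _ hL0.ne', div_le_div_iff_of_pos_right hL0, Finset.card_filter,
      Finset.card_filter] at h1
    push_cast at h1
    exact h1
  have hsum : ∑ l, ∑ o, acc (yes l) o ≤ ∑ l, ∑ o, acc (no l) o +
      Fintype.card (Ω × (Fin (B + 1) → Fin K)) * ((n : ℝ) ^ (-a) * Fintype.card Λ) := by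
    rw [Finset.sum_comm, Finset.sum_comm (s := (univ : Finset Λ)) (t := univ)]
    have h1 : (Fintype.card (Ω × (Fin (B + 1) → Fin K)) : ℝ) *
        ((n : ℝ) ^ (-a) * Fintype.card Λ) =
        ∑ _o : Ω × (Fin (B + 1) → Fin K), (n : ℝ) ^ (-a) * Fintype.card Λ := by
      rw [sum_const, card_univ, nsmul_eq_mul]
    rw [h1, ← sum_add_distrib]
    exact sum_le_sum fun o _ => hone o
  have h2 : (Fintype.card Λ : ℝ) * ((2 / 3 - 1 / 20 : ℝ) *
      Fintype.card (Ω × (Fin (B + 1) → Fin K))) ≤ ∑ l, ∑ o, acc (yes l) o := by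
    have h3 : (Fintype.card Λ : ℝ) * ((2 / 3 - 1 / 20 : ℝ) *
      Fintype.card (Ω × (Fin (B + 1) → Fin K))) = ∑ _l : Λ, (2 / 3 - 1 / 20 : ℝ) *
      Fintype.card (Ω × (Fin (B + 1) → Fin K)) := by
      rw [sum_const, card_univ, nsmul_eq_mul]
    rw [h3]
    exact sum_le_sum fun l _ => hy l
  have h3 : ∑ l, ∑ o, acc (no l) o ≤ (Fintype.card Λ : ℝ) * (1 / 3 *
      Fintype.card (Ω × (Fin (B + 1) → Fin K))) := by
    have h4 : (Fintype.card Λ : ℝ) * (1 / 3 *
      Fintype.card (Ω × (Fin (B + 1) → Fin K))) = ∑ _l : Λ, (1 / 3 : ℝ) *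
      Fintype.card (Ω × (Fin (B + 1) → Fin K)) := by
      rw [sum_const, card_univ, nsmul_eq_mul]
    rw [h4]
    exact sum_le_sum fun l _ => hn' l
  set W : ℝ := Fintype.card Λ * Fintype.card (Ω × (Fin (B + 1) → Fin K)) with hW
  have hWpos : 0 < W := by positivity
  have h5 : (2 / 3 - 1 / 20 : ℝ) * W ≤ 1 / 3 * W + (n : ℝ) ^ (-a) * W := by
    have e1 : (Fintype.card Λ : ℝ) * ((2 / 3 - 1 / 20 : ℝ) *
      Fintype.card (Ω × (Fin (B + 1) → Fin K))) = (2 / 3 - 1 / 20 : ℝ) * W := by rw [hW]; ring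
    have e2 : (Fintype.card Λ : ℝ) * (1 / 3 * Fintype.card (Ω × (Fin (B + 1) → Fin K))) =
      1 / 3 * W := by rw [hW]; ring
    have e3 : (Fintype.card (Ω × (Fin (B + 1) → Fin K)) : ℝ) *
        ((n : ℝ) ^ (-a) * Fintype.card Λ) = (n : ℝ) ^ (-a) * W := by rw [hW]; ring
    rw [← e1, ← e2, ← e3]
    linarith
  have h6 : (n : ℝ) ^ (-a) * W < 1 / 10 * W := mul_lt_mul_of_pos_right hsmall hWpos
  linarith

end Pool.Agent.Q226.SUF
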